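import Pool.Agent.H76.QE.Targets3
import Pool.Agent.H60.QD.LOC
import Pool.Agent.H60.QD.KEX

/-!
# qd board, row LVE: the quadratic form of the violated part of the density on characters
-/

set_option autoImplicit false

namespace Pool.Agent.H35.QD

open Finset Pool.Agent.H76.QE
open Pool.Agent.H1.LP (supp ip comb kk)
open H43.PS (PosDeg Low av)
open Pool.Agent.H73.OX
open Pool.Agent.H60.QD (comb_add ip_comb_single supp_single supp_add swap4)

/-- exchange of three sums -/
theorem sw {ι α β : Type*} [Fintype ι] [Fintype α] [Fintype β] (F : ι → α → β → ℂ) :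
    ∑ s, ∑ y, ∑ y', F s y y' = ∑ y, ∑ y', ∑ s, F s y y' := by
  rw [sum_comm]
  refine sum_congr rfl fun y _ => ?_
  rw [sum_comm]

section

variable {p : ℕ} [hp : Fact p.Prime]

theorem sum_psi (u : ZMod p) :
    ∑ s : ZMod p, (ZMod.stdAddChar (s * u) : ℂ) = if u = 0 then (p : ℂ) else 0 := by
  have h := AddChar.sum_mulShift (ψ := (ZMod.stdAddChar : AddChar (ZMod p) ℂ)) u
    (ZMod.isPrimitive_stdAddChar p)
  rw [h, ZMod.card]
  split_ifs
  · rfl
  · exact Nat.cast_zero

open Classical in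
/-- Fourier inversion -/
theorem inversion (b0 b1 t t' : ZMod p) :
    ∑ s : ZMod p, ∑ s' : ZMod p, PH b0 b1 s s' * (ZMod.stdAddChar (s * t + s' * t') : ℂ) =
      if t' - b1 ≠ (t - b0) ^ 2 then 1 else 0 := by
  have hp0 : (p : ℂ) ≠ 0 := Nat.cast_ne_zero.mpr hp.out.ne_zero
  obtain ⟨c, hc⟩ : ∃ c : ZMod p → ZMod p → ℂ, ∀ y y', c y y' =
      if y' - b1 ≠ (y - b0) ^ 2 then 1 else 0 := ⟨_, fun _ _ => rfl⟩
  have h1 : ∀ s s' : ZMod p, PH b0 b1 s s' * (ZMod.stdAddChar (s * t + s' * t') : ℂ) =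
      ((p : ℂ) ^ 2)⁻¹ * ∑ y : ZMod p, ∑ y' : ZMod p, c y y' *
        ((ZMod.stdAddChar (s * (t - y)) : ℂ) * (ZMod.stdAddChar (s' * (t' - y')) : ℂ)) := by
    intro s s'
    unfold PH
    rw [mul_assoc]
    congr 1
    rw [sum_mul]
    refine sum_congr rfl fun y _ => ?_
    rw [sum_mul]
    refine sum_congr rfl fun y' _ => ?_
    rw [hc, ← AddChar.map_add_eq_mul]
    by_cases h : y' - b1 ≠ (y - b0) ^ 2
    · rw [if_pos h, if_pos h, ← AddChar.map_add_eq_mul, one_mul]
      congr 1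
      ring
    · rw [if_neg h, if_neg h, zero_mul, zero_mul]
  rw [sum_congr rfl fun s _ => sum_congr rfl fun s' _ => h1 s s']
  simp only [← mul_sum]
  rw [sum_congr rfl fun s _ => sw _, sw]
  have h2 : ∀ y y' : ZMod p, ∑ s : ZMod p, ∑ s' : ZMod p, c y y' *
      ((ZMod.stdAddChar (s * (t - y)) : ℂ) * (ZMod.stdAddChar (s' * (t' - y')) : ℂ)) =
      c y y' * ((if t - y = 0 then (p : ℂ) else 0) * (if t' - y' = 0 then (p : ℂ) else 0)) := by
    intro y y'
    rw [← sum_psi, ← sum_psi, sum_mul_sum, mul_sum]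
    refine sum_congr rfl fun s _ => ?_
    rw [mul_sum]
  rw [sum_congr rfl fun y _ => sum_congr rfl fun y' _ => h2 y y']
  rw [Finset.sum_eq_single t, Finset.sum_eq_single t']
  · rw [sub_self, if_pos rfl, sub_self, if_pos rfl, hc]
    have h3 : ((p : ℂ) ^ 2)⁻¹ * ((if t' - b1 ≠ (t - b0) ^ 2 then 1 else 0) * ((p : ℂ) * p)) =
        (if t' - b1 ≠ (t - b0) ^ 2 then 1 else 0) * (((p : ℂ) ^ 2)⁻¹ * (p : ℂ) ^ 2) := by ring
    rw [h3, inv_mul_cancel₀ (pow_ne_zero 2 hp0), mul_one]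
  · intro y' _ hy'
    rw [if_neg (sub_ne_zero.2 (Ne.symm hy')), mul_zero, mul_zero]
  · intro h
    exact absurd (mem_univ _) h
  · intro y _ hy
    refine sum_eq_zero fun y' _ => ?_
    rw [if_neg (sub_ne_zero.2 (Ne.symm hy)), zero_mul, mul_zero]
  · intro h
    exact absurd (mem_univ _) h

variable {N M τ : ℕ}

theorem ip_single_left (i : Fin M) (s : ZMod p) (c : Fin M → ZMod p) :
    ip (Pi.single i s) c = s * c i := by
  rw [ip_comm, ip_single, mul_comm]

theorem mem_CC {t : ℕ} {C : Fin M → ZMod p} : C ∈ CC p M t ↔ (supp C).card ≤ t := by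
  unfold CC
  rw [mem_filter]
  exact ⟨fun h => h.2, fun h => ⟨mem_univ _, h⟩⟩

/-- the substitution -/
theorem subst (hX : T_CPX) (A : Fin M → Fin N → ZMod p) (c : Fin M → ZMod p) (i j : Fin M)
    (s s' : ZMod p) (F : ℂ) (z : Fin N → ZMod p) :
    ∑ C ∈ CC p M (τ + 2), ch (comb A C) z * ((ZMod.stdAddChar (-ip C c) : ℂ) *
      (if (supp (C - Pi.single i s - Pi.single j s')).card ≤ τ then
        F * (ZMod.stdAddChar (s * c i + s' * c j) : ℂ) else 0)) =
      F * (ZMod.stdAddChar (s * ip (A i) z + s' * ip (A j) z) : ℂ) * ((LD A τ c z : ℝ) : ℂ) := by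
  rw [hX p M N τ A c z, mul_sum]
  have h1 : ∀ C : Fin M → ZMod p, ch (comb A C) z * ((ZMod.stdAddChar (-ip C c) : ℂ) *
      (if (supp (C - Pi.single i s - Pi.single j s')).card ≤ τ then
        F * (ZMod.stdAddChar (s * c i + s' * c j) : ℂ) else 0)) =
      if (supp (C - Pi.single i s - Pi.single j s')).card ≤ τ then
        ch (comb A C) z * ((ZMod.stdAddChar (-ip C c) : ℂ) *
        (F * (ZMod.stdAddChar (s * c i + s' * c j) : ℂ))) else 0 := by
    intro C
    split_ifs
    · rfl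
    · rw [mul_zero, mul_zero]
  rw [sum_congr rfl fun C _ => h1 C, ← sum_filter]
  refine Finset.sum_nbij' (fun C => C - Pi.single i s - Pi.single j s')
    (fun C => C + Pi.single i s + Pi.single j s') ?_ ?_ ?_ ?_ ?_
  · intro C hC
    rw [mem_filter] at hC
    exact mem_CC.2 hC.2
  · intro C hC
    rw [mem_CC] at hC
    have e : C + Pi.single i s + Pi.single j s' - Pi.single i s - Pi.single j s' = C := by
      abel
    rw [mem_filter, mem_CC, e]
    refine ⟨?_, hC⟩
    have h2 : supp (C + Pi.single i s + Pi.single j s') ⊆ (supp C ∪ {i}) ∪ {j} :=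
      (supp_add _ _).trans (union_subset_union ((supp_add _ _).trans
        (union_subset_union Subset.rfl (supp_single i s))) (supp_single j s'))
    have h3 := card_le_card h2
    have h4 := card_union_le (supp C ∪ {i}) {j}
    have h5 := card_union_le (supp C) {i}
    rw [card_singleton] at h4 h5
    omega
  · intro C _
    abel
  · intro C _
    abel
  · intro C _
    obtain ⟨D, hD⟩ : ∃ D, D = C - Pi.single i s - Pi.single j s' := ⟨_, rfl⟩
    have hC : C = D + Pi.single i s + Pi.single j s' := by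
      rw [hD]
      abel
    rw [← hD, hC]
    unfold ch
    rw [comb_add, comb_add, ip_add_left, ip_add_left, ip_add_left, ip_add_left, ip_comb_single,
      ip_comb_single, ip_single_left, ip_single_left]
    have e : ∀ a b c' d : ZMod p, ∀ G : ℂ, (ZMod.stdAddChar a : ℂ) * ((ZMod.stdAddChar b : ℂ) *
        (G * (ZMod.stdAddChar c' : ℂ))) = G * (ZMod.stdAddChar (a + b + c') : ℂ) := by
      intro a b c' d G
      rw [AddChar.map_add_eq_mul, AddChar.map_add_eq_mul]
      ring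
    rw [e _ _ _ 0, mul_assoc, ← AddChar.map_add_eq_mul]
    congr 2
    ring

open Classical in
/-- the density times the indicator of the violation -/
theorem dens (hX : T_CPX) {R : ℕ} (A : Fin (R + R) → Fin N → ZMod p) (b : Fin (R + R) → ZMod p)
    (i : Fin R) (z : Fin N → ZMod p) :
    (((if Bad A b i z then D0 A τ b z else 0 : ℝ)) : ℂ) =
      ∑ C ∈ CC p (R + R) (τ + 2), ch (comb A C) z * KX b i τ C := by
  obtain ⟨F, hF⟩ : ∃ F : ZMod p → ZMod p → ℂ, F =
    PH (b (Fin.castAdd R i)) (b (Fin.natAdd R i)) := ⟨_, rfl⟩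
  have h1 : ∀ C : Fin (R + R) → ZMod p, ch (comb A C) z * KX b i τ C =
      ((p : ℂ) ^ R)⁻¹ * ∑ x : Fin R → ZMod p, ∑ s : ZMod p, ∑ s' : ZMod p,
        ch (comb A C) z * ((ZMod.stdAddChar (-ip C (sh b x)) : ℂ) *
      (if (supp (C - Pi.single (Fin.castAdd R i) s - Pi.single (Fin.natAdd R i) s')).card ≤ τ
        then F s s' * (ZMod.stdAddChar (s * sh b x (Fin.castAdd R i) +
          s' * sh b x (Fin.natAdd R i)) : ℂ) else 0)) := by
    intro C
    unfold KX
    rw [← hF, mul_left_comm]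
    congr 1
    rw [mul_sum]
    refine sum_congr rfl fun x _ => ?_
    rw [mul_sum, mul_sum]
    refine sum_congr rfl fun s _ => ?_
    rw [mul_sum, mul_sum]
  rw [sum_congr rfl fun C _ => h1 C, ← mul_sum, sum_comm]
  have h2 : ∀ x : Fin R → ZMod p, ∑ C ∈ CC p (R + R) (τ + 2), ∑ s : ZMod p, ∑ s' : ZMod p,
        ch (comb A C) z * ((ZMod.stdAddChar (-ip C (sh b x)) : ℂ) *
      (if (supp (C - Pi.single (Fin.castAdd R i) s - Pi.single (Fin.natAdd R i) s')).card ≤ τ
        then F s s' * (ZMod.stdAddChar (s * sh b x (Fin.castAdd R i) +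
          s' * sh b x (Fin.natAdd R i)) : ℂ) else 0)) =
      (if Bad A b i z then 1 else 0) * ((LD A τ (sh b x) z : ℝ) : ℂ) := by
    intro x
    rw [sum_comm, sum_congr rfl fun s _ => sum_comm,
      sum_congr rfl fun s _ => sum_congr rfl fun s' _ =>
        subst hX A (sh b x) (Fin.castAdd R i) (Fin.natAdd R i) s s' (F s s') z]
    simp only [← sum_mul]
    rw [hF, inversion]
    congr 1
    exact if_congr Iff.rfl rfl rfl
  rw [sum_congr rfl fun x _ => h2 x, ← mul_sum]
  unfold D0 av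
  have hc : (Fintype.card (Fin R → ZMod p) : ℝ) = (p : ℝ) ^ R := by
    rw [Fintype.card_fun, ZMod.card, Fintype.card_fin]
    push_cast
    rfl
  rw [hc]
  split_ifs
  · push_cast
    rw [one_mul]
  · rw [zero_mul, mul_zero]
    norm_num

/-- the quadratic form of a function given by characters -/
theorem form (A : Fin M → Fin N → ZMod p) (S : Finset (Fin M → ZMod p))
    (K : (Fin M → ZMod p) → ℂ) (Φ : (Fin N → ZMod p) → ℝ)
    (hΦ : ∀ z, ((Φ z : ℝ) : ℂ) = ∑ C ∈ S, ch (comb A C) z * K C)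
    (V : Finset (Fin N → ZMod p)) (a : (Fin N → ZMod p) → ℂ) (f : (Fin N → ZMod p) → ℝ)
    (hf : ∀ z, ((f z : ℝ) : ℂ) = ∑ l ∈ V, a l * ch l z) :
    ∑ z, ((Φ z : ℝ) : ℂ) * ((f z : ℝ) : ℂ) ^ 2 =
      (p : ℂ) ^ N * ∑ x ∈ V, ∑ y ∈ V, a x * (starRingEnd ℂ) (a y) *
        ∑ C ∈ S.filter (fun C => comb A C = y - x), K C := by
  have h1 : ∀ z, ((Φ z : ℝ) : ℂ) * ((f z : ℝ) : ℂ) ^ 2 =
      (∑ C ∈ S, ch (comb A C) z * K C) *
        ((∑ x ∈ V, a x * ch x z) * ∑ y ∈ V, (starRingEnd ℂ) (a y) * ch (-y) z) := by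
    intro z
    have e1 : ((f z : ℝ) : ℂ) ^ 2 = ((f z : ℝ) : ℂ) * (starRingEnd ℂ) ((f z : ℝ) : ℂ) := by
      rw [Complex.conj_ofReal, pow_two]
    rw [e1, hf z, map_sum, hΦ z]
    congr 1
    congr 1
    refine sum_congr rfl fun y _ => ?_
    rw [map_mul, conj_ch]
  rw [sum_congr rfl fun z _ => h1 z, swap4, mul_sum]
  refine sum_congr rfl fun x _ => ?_
  rw [mul_sum]
  refine sum_congr rfl fun y _ => ?_
  rw [sum_filter, mul_sum, mul_sum]
  refine sum_congr rfl fun C _ => ?_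
  have h2 : ∀ z, ch (comb A C) z * K C *
      (a x * ch x z * ((starRingEnd ℂ) (a y) * ch (-y) z)) =
      a x * (starRingEnd ℂ) (a y) * K C * ch (comb A C + x + -y) z := by
    intro z
    rw [ch_add_left, ch_add_left]
    ring
  rw [sum_congr rfl fun z _ => h2 z, ← mul_sum, sum_ch]
  have h3 : comb A C + x + -y = 0 ↔ comb A C = y - x := by
    constructor
    · intro h
      have : comb A C = (comb A C + x + -y) + (y - x) := by abel
      rw [this, h, zero_add]
    · intro h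
      rw [h]
      abel
  by_cases h : comb A C = y - x
  · rw [if_pos (h3.2 h), if_pos h]
    ring
  · rw [if_neg fun h' => h (h3.1 h'), if_neg h]
    ring

end

theorem pf_LVE (hX : T_CPX) : T_LVE := by
  classical
  intro p R N τ hp A b i B hB V a f hf
  have h1 := form A (CC p (R + R) (τ + 2)) (KX b i τ)
    (fun z => if Bad A b i z then D0 A τ b z else 0) (fun z => dens hX A b i z) V a f hf
  have h2 : ((∑ z ∈ B, D0 A τ b z * f z ^ 2 : ℝ) : ℂ) =
      ∑ z, (((if Bad A b i z then D0 A τ b z else 0 : ℝ)) : ℂ) * ((f z : ℝ) : ℂ) ^ 2 := by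
    have hBf : B = univ.filter (fun z => Bad A b i z) := by
      ext z
      rw [hB, mem_filter]
      exact ⟨fun h => ⟨mem_univ _, h⟩, fun h => h.2⟩
    rw [hBf, sum_filter, Complex.ofReal_sum]
    refine sum_congr rfl fun z _ => ?_
    split_ifs
    · push_cast
      rfl
    · rw [Complex.ofReal_zero, zero_mul]
  rw [h1] at h2
  have h5 := congrArg Complex.re h2
  rw [Complex.ofReal_re] at h5
  rw [h5]
  have hpN : ((p : ℂ) ^ N) = (((p : ℝ) ^ N : ℝ) : ℂ) := by push_cast; rfl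
  rw [hpN, Complex.re_ofReal_mul]

end Pool.Agent.H35.QD
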